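import Pool.Agent.G02.Stmts

/-!
# Squad G02, row ISO: the 2-isogeny
-/

set_option autoImplicit false

namespace Pool.Agent.G02.H32

open Polynomial Pool.Agent.NJ

theorem iso1 (a b : ℚ) (hs : ¬ IsSquare (a ^ 2 - 4 * b)) (h : Tr a b) :
    Tr (-2 * a) (a ^ 2 - 4 * b) := by
  intro x y hxy
  by_contra hy
  have hx : x ≠ 0 := by
    rintro rfl
    apply hy
    have : y ^ 2 = 0 := by rw [hxy]; ring
    exact pow_eq_zero_iff (two_ne_zero) |>.1 this
  have h1 := h ((x ^ 2 + -2 * a * x + (a ^ 2 - 4 * b)) / (4 * x))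
    (y * (x ^ 2 - (a ^ 2 - 4 * b)) / (8 * x ^ 2)) (by
      rw [div_pow, mul_pow, hxy]
      field_simp
      ring)
  have h2 : y * (x ^ 2 - (a ^ 2 - 4 * b)) = 0 := by
    rcases div_eq_zero_iff.1 h1 with h3 | h3
    · exact h3
    · exact absurd h3 (mul_ne_zero (by norm_num) (pow_ne_zero 2 hx))
  rcases mul_eq_zero.1 h2 with h3 | h3
  · exact hy h3
  · exact hs ⟨x, by linarith [h3]⟩

theorem iso (hS : SclStmt) : IsoStmt := by
  refine ⟨iso1, ?_⟩
  rintro D t D' m hm hD' ⟨hD, ht, htt, hT⟩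
  have ht0 : t ≠ 0 := by
    rintro rfl
    exact ht ⟨0, by norm_num⟩
  have ht4 : t - 4 ≠ 0 := by
    intro h
    have : t = 4 := by linarith
    exact ht ⟨2, by rw [this]; norm_num⟩
  refine ⟨?_, ?_, ?_, ?_⟩
  · rw [hD']
    exact div_ne_zero (neg_ne_zero.2 (mul_ne_zero (mul_ne_zero (pow_ne_zero 2 hm) hD) ht4))
      (by norm_num)
  · rintro ⟨r, hr⟩
    apply htt
    refine ⟨r * ((t - 4) / 2), ?_⟩
    have h1 : 4 * t = r * r * (t - 4) := by
      rw [div_eq_iff ht4] at hr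
      exact hr
    linear_combination (t - 4) / 4 * h1
  · rintro ⟨r, hr⟩
    apply ht
    refine ⟨r * (t - 4) / 8, ?_⟩
    have h1 : 4 * t / (t - 4) * (4 * t / (t - 4) - 4) = 64 * t / (t - 4) ^ 2 := by
      field_simp
      ring
    rw [h1, div_eq_iff (pow_ne_zero 2 ht4)] at hr
    linear_combination hr / 64
  · have hns : ¬ IsSquare ((D * t) ^ 2 - 4 * (D ^ 2 * t)) := by
      rintro ⟨r, hr⟩
      apply htt
      refine ⟨r / D, ?_⟩
      field_simp
      linear_combination hr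
    have h2 := (hS (-2 * (D * t)) ((D * t) ^ 2 - 4 * (D ^ 2 * t)) m hm).2
      (iso1 _ _ hns hT)
    have e1 : D' * (4 * t / (t - 4)) = -2 * (D * t) * m ^ 2 := by
      rw [hD']
      field_simp
      ring
    have e2 : D' ^ 2 * (4 * t / (t - 4)) = ((D * t) ^ 2 - 4 * (D ^ 2 * t)) * m ^ 4 := by
      rw [hD']
      field_simp
      ring
    rw [e1, e2]
    exact h2

end Pool.Agent.G02.H32
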