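import Pool.Agent.G02.Stmts

/-!
# Squad G02, row SC2: recipe A for `k = -1`, the curve `S'`
-/

set_option autoImplicit false
set_option maxRecDepth 100000

namespace Pool.Agent.G02.H32

open Polynomial Pool.Agent.NJ

theorem ndm {l : ℕ} (hl : l.Prime) {a b : ℤ} (ha : ¬ (l : ℤ) ∣ a) (hb : ¬ (l : ℤ) ∣ b) :
    ¬ (l : ℤ) ∣ a * b := fun h =>
  ((Nat.prime_iff_prime_int.1 hl).dvd_or_dvd h).elim ha hb

theorem ndp {l : ℕ} (hl : l.Prime) {a : ℤ} (ha : ¬ (l : ℤ) ∣ a) (n : ℕ) : ¬ (l : ℤ) ∣ a ^ n :=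
  fun h => ha ((Nat.prime_iff_prime_int.1 hl).dvd_of_dvd_pow h)

theorem ndn {l : ℕ} {a : ℤ} (ha : ¬ (l : ℤ) ∣ a) : ¬ (l : ℤ) ∣ -a :=
  fun h => ha ((dvd_neg).1 h)

theorem nde {l m : ℕ} (hl : l.Prime) (hm : m.Prime) (h : l ≠ m) : ¬ (l : ℤ) ∣ (m : ℤ) := by
  intro h'
  rw [Int.natCast_dvd_natCast] at h'
  exact h ((Nat.prime_dvd_prime_iff_eq hl hm).1 h')

theorem at1 (l : ℕ) [Fact l.Prime] (h : l % 8 = 3) : legendreSym l (-1) = -1 := by
  have h2 : l ≠ 2 := by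
    rintro rfl
    norm_num at h
  rw [legendreSym.at_neg_one h2, ZMod.χ₄_nat_three_mod_four (by omega)]

theorem at2 (l : ℕ) [Fact l.Prime] (h : l % 8 = 3) : legendreSym l 2 = -1 := by
  have h2 : l ≠ 2 := by
    rintro rfl
    norm_num at h
  rw [legendreSym.at_two h2, ZMod.χ₈_nat_mod_eight, h]
  decide

theorem m8 : ∀ n m e : ZMod 8, (e = 1 ∨ e = 3 ∨ e = 5 ∨ e = 7) →
    2 * n ^ 2 ≠ -m ^ 4 - 2 * m ^ 2 * e ^ 2 + e ^ 4 := by
  decide

theorem c8 (l : ℕ) (h : l % 8 = 3) : ((l : ℤ) : ZMod 8) = 3 := by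
  have : ((l : ℤ) : ZMod 8) = ((3 : ℤ) : ZMod 8) := by
    rw [ZMod.intCast_eq_intCast_iff]
    show (l : ℤ) % ((8 : ℕ) : ℤ) = 3 % ((8 : ℕ) : ℤ)
    omega
  rw [this]
  rfl

theorem o8 (e : ℤ) (h : ¬ (2 : ℤ) ∣ e) : ((e : ℤ) : ZMod 8) = 1 ∨ ((e : ℤ) : ZMod 8) = 3 ∨
    ((e : ℤ) : ZMod 8) = 5 ∨ ((e : ℤ) : ZMod 8) = 7 := by
  have h1 : e % 8 = 1 ∨ e % 8 = 3 ∨ e % 8 = 5 ∨ e % 8 = 7 := by omega
  have key : ∀ c : ℤ, e % 8 = c % 8 → ((e : ℤ) : ZMod 8) = ((c : ℤ) : ZMod 8) := by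
    intro c hc
    rw [ZMod.intCast_eq_intCast_iff]
    exact hc
  rcases h1 with h | h | h | h
  · exact Or.inl (by rw [key 1 h]; rfl)
  · exact Or.inr (Or.inl (by rw [key 3 h]; rfl))
  · exact Or.inr (Or.inr (Or.inl (by rw [key 5 h]; rfl)))
  · exact Or.inr (Or.inr (Or.inr (by rw [key 7 h]; rfl)))

theorem sc2 (hRLA : RlaStmt) (hLA : LaStmt) (hLC : LcStmt) (hLE : LeStmt) (hSQ : SQFStmt) :
    Sc2Stmt := by
  intro p q r hR d M e N B hQ hpd
  have : Fact p.Prime := ⟨hR.pp⟩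
  have : Fact q.Prime := ⟨hR.pq⟩
  have : Fact r.Prime := ⟨hR.pr⟩
  obtain ⟨hr8, s, hS⟩ := hRLA (-1) p q r hR
  have hp8 := hR.mp
  have hq8 := hR.mq
  have hr := hR.hr
  have pp := hR.pp
  have pq := hR.pq
  have pr := hR.pr
  have two : Nat.Prime 2 := Nat.prime_two
  have hp2 : ¬ (p : ℤ) ∣ 4 := by
    have := ndp pp (nde pp two hS.p2) 2
    norm_num at this ⊢
    exact this
  have hq2' : ¬ (q : ℤ) ∣ 2 := nde pq two hS.q2
  have hq2 : ¬ (q : ℤ) ∣ 4 := by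
    have := ndp pq (nde pq two hS.q2) 2
    norm_num at this ⊢
    exact this
  have hr2 : ¬ (r : ℤ) ∣ 4 := by
    have := ndp pr (nde pr two hS.r2) 2
    norm_num at this ⊢
    exact this
  have hpq := nde pp pq hS.npq
  have hpr := nde pp pr hS.npr
  have hqp := nde pq pp (Ne.symm hS.npq)
  have hqr := nde pq pr hS.nqr
  have hrp := nde pr pp (Ne.symm hS.npr)
  have hrq := nde pr pq (Ne.symm hS.nqr)
  have p1 := at1 p hp8
  have p2 := at2 p hp8
  have q1 := at1 q hq8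
  have q2 := at2 q hq8
  have r1 := at1 r hr8
  have r2 := at2 r hr8
  have pQ := hS.hpQ
  have pR := hS.hpR
  have qP := hS.hqP
  have qR := hS.hqR
  have rP := hS.hrP
  have rQ := hS.hrQ
  have s1 := hS.one
  -- the support
  have hsup : ∀ l : ℕ, l.Prime → (l : ℤ) ∣ d → l = 2 ∨ l = q ∨ l = r := by
    intro l hl hld
    by_contra hn
    push Not at hn
    obtain ⟨n2, nq, nr⟩ := hn
    have np : l ≠ p := by
      rintro rfl
      exact hpd hld
    have h4 : ¬ (l : ℤ) ∣ 4 := by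
      have := ndp hl (nde hl two n2) 2
      norm_num at this ⊢
      exact this
    have : ¬ (l : ℤ) ∣ -(4 * (p : ℤ) ^ 3 * q ^ 2 * r ^ 3) :=
      ndn (ndm hl (ndm hl (ndm hl h4 (ndp hl (nde hl pp np) 3)) (ndp hl (nde hl pq nq) 2))
        (ndp hl (nde hl pr nr) 3))
    exact this (hQ.hb ▸ (hld.trans (Dvd.intro _ rfl)))
  -- at p
  have hP : legendreSym p d = 1 := by
    refine hLA _ _ _ _ _ _ _ hQ p hS.p2 hpd (Or.inr ⟨⟨-(4 * q * r), by ring⟩,
      ⟨-(4 * q ^ 2 * r ^ 3), by ring⟩, ?_⟩)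
    rintro ⟨c, hc⟩
    have h1 : -(4 * (q : ℤ) ^ 2 * r ^ 3) = p * c := by
      have h2 : (p : ℤ) ^ 3 ≠ 0 := pow_ne_zero 3 (by exact_mod_cast pp.ne_zero)
      apply mul_left_cancel₀ h2
      linear_combination hc
    exact ndn (ndm pp (ndm pp hp2 (ndp pp hpq 2)) (ndp pp hpr 3)) ⟨c, h1⟩
  -- at q
  have hQ' := hLE _ _ _ _ _ _ _ hQ q (-(4 * p ^ 2 * r)) (-(4 * p ^ 3 * r ^ 3)) (32 * p ^ 3 * r ^ 2)
    hS.q2 (by ring) (by ring) (by rw [hr]; ring)
    (ndn (ndm pq (ndm pq hq2 (ndp pq hqp 2)) hqr))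
    (ndm pq (ndm pq (by
      have := ndp pq hq2' 5
      norm_num at this ⊢
      exact this) (ndp pq hqp 3)) (ndp pq hqr 2))
  obtain ⟨hQ1, hQ2⟩ := hQ'
  -- at r
  obtain ⟨hR1, hR2⟩ := hLC _ _ _ _ _ _ _ hQ r (-(4 * p ^ 2 * q)) (-(4 * p ^ 3 * q ^ 2)) hS.r2
    (by ring) (by ring) (ndn (ndm pr (ndm pr hr2 (ndp pr hrp 2)) hrq))
    (ndn (ndm pr (ndm pr hr2 (ndp pr hrp 3)) (ndp pr hrq 2)))
  obtain ⟨ε, hε, hd⟩ := (hSQ d q r hQ.sqf pq pr hS.q2 hS.r2 hS.nqr).2 hsup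
  have pE : legendreSym p ε = ε := by
    rcases hε with rfl | rfl
    · exact legendreSym.at_one p
    · exact p1
  have qE : legendreSym q ε = ε := by
    rcases hε with rfl | rfl
    · exact legendreSym.at_one q
    · exact q1
  have rE : legendreSym r ε = ε := by
    rcases hε with rfl | rfl
    · exact legendreSym.at_one r
    · exact r1
  have hqE : ¬ (q : ℤ) ∣ ε := by
    intro h
    have h1 : (q : ℤ) ∣ 1 := by
      rcases hε with rfl | rfl
      · exact h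
      · exact (dvd_neg).1 h
    have h2 : q ∣ 1 := by exact_mod_cast h1
    exact pq.one_lt.ne' (Nat.dvd_one.1 h2)
  rcases hd with hd | hd | hd | hd | hd | hd | hd | hd
  · -- `d = ε`
    rw [hd, pE] at hP
    rw [hd, hP]
  · -- `d = 2 ε`
    exfalso
    rw [hd, legendreSym.mul, pE, p2] at hP
    have hε1 : ε = -1 := by omega
    subst hε1
    have hd2 : d = -2 := by rw [hd]; norm_num
    subst hd2
    have hB : B = 2 * p ^ 3 * q ^ 2 * r ^ 3 := by
      have := hQ.hb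
      linarith
    have he : ¬ (2 : ℤ) ∣ e := by
      intro h
      have h1 := hQ.cop
      have h2 : (2 : ℤ) ∣ -2 * M := ⟨-M, by ring⟩
      have h3 := h1.isUnit_of_dvd' h2 h
      rw [Int.isUnit_iff] at h3
      omega
    have heq := hQ.eq
    rw [hB] at heq
    have hN : (2 : ℤ) ∣ N := by
      have h1 : (2 : ℤ) ∣ N ^ 2 := ⟨-M ^ 4 - 2 * p ^ 2 * q * r * M ^ 2 * e ^ 2 +
        p ^ 3 * q ^ 2 * r ^ 3 * e ^ 4, by rw [heq]; ring⟩
      exact Int.prime_two.dvd_of_dvd_pow h1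
    obtain ⟨N₁, rfl⟩ := hN
    have h3 : 2 * N₁ ^ 2 = -M ^ 4 - 2 * (p ^ 2 * q * r) * M ^ 2 * e ^ 2 +
        (p ^ 3 * q ^ 2 * r ^ 3) * e ^ 4 := by linarith
    have h4 := congrArg (fun z : ℤ => (z : ZMod 8)) h3
    simp only [Int.cast_mul, Int.cast_pow, Int.cast_add, Int.cast_sub, Int.cast_neg,
      Int.cast_ofNat] at h4
    rw [c8 p hp8, c8 q hq8, c8 r hr8] at h4
    have e1 : (3 : ZMod 8) ^ 2 * 3 * 3 = 1 := by decide
    have e2 : (3 : ZMod 8) ^ 3 * 3 ^ 2 * 3 ^ 3 = 1 := by decide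
    rw [e1, e2, mul_one, one_mul] at h4
    exact m8 _ _ _ (o8 e he) h4
  · -- `d = ε q`
    exfalso
    rw [hd, legendreSym.mul, pE, pQ] at hP
    have h1 := (hQ2 ε (by rw [hd]; ring)).1
    have h2 : -(32 * (p : ℤ) ^ 3 * r ^ 2 * ε) =
        -1 * (2 * (2 * (2 * (2 * (2 * (p * (p * (p * (r * (r * ε))))))))) ) := by ring
    rw [h2] at h1
    simp only [legendreSym.mul, q1, q2, qP, qR, qE] at h1
    rcases s1 with rfl | rfl <;> rcases hε with rfl | rfl <;>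
      first | (norm_num at h1; done) | norm_num at hP
  · -- `d = 2 ε q`
    exfalso
    rw [hd] at hP
    simp only [legendreSym.mul, pE, pQ, p2] at hP
    have h1 := (hQ2 (2 * ε) (by rw [hd]; ring)).1
    have h2 : -(32 * (p : ℤ) ^ 3 * r ^ 2 * (2 * ε)) =
        -1 * (2 * (2 * (2 * (2 * (2 * (2 * (p * (p * (p * (r * (r * ε)))))))))) ) := by ring
    rw [h2] at h1
    simp only [legendreSym.mul, q1, q2, qP, qR, qE] at h1
    rcases s1 with rfl | rfl <;> rcases hε with rfl | rfl <;>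
      first | (norm_num at h1; done) | norm_num at hP
  · -- `d = ε r`
    exfalso
    have h0 : ¬ (q : ℤ) ∣ d := by rw [hd]; exact ndm pq hqE hqr
    have h1 := hQ1 h0
    rw [hd] at hP h1
    simp only [legendreSym.mul, pE, pR] at hP
    simp only [legendreSym.mul, qE, qR] at h1
    rcases s1 with rfl | rfl <;> rcases hε with rfl | rfl <;>
      first | (norm_num at h1; done) | norm_num at hP
  · -- `d = 2 ε r`
    exfalso
    have h0 : ¬ (q : ℤ) ∣ d := by rw [hd]; exact ndm pq hqE (ndm pq hq2' hqr)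
    have h1 := hQ1 h0
    rw [hd] at hP h1
    simp only [legendreSym.mul, pE, pR, p2] at hP
    simp only [legendreSym.mul, qE, qR, q2] at h1
    rcases s1 with rfl | rfl <;> rcases hε with rfl | rfl <;>
      first | (norm_num at h1; done) | norm_num at hP
  · -- `d = ε q r`
    exfalso
    rw [hd] at hP
    simp only [legendreSym.mul, pE, pR, pQ] at hP
    have h1 := hR2 (ε * q) (by rw [hd]; ring)
    have h2 : -(4 * (p : ℤ) ^ 3 * q ^ 2) * (ε * q) =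
        -1 * (2 * (2 * (p * (p * (p * (q * (q * (q * ε)))))))) := by ring
    have h3 : -(-(4 * (p : ℤ) ^ 2 * q) * (ε * q)) =
        2 * (2 * (p * (p * (q * (q * ε))))) := by ring
    rw [h2, h3] at h1
    simp only [legendreSym.mul, r1, r2, rP, rQ, rE] at h1
    rcases s1 with rfl | rfl <;> rcases hε with rfl | rfl <;>
      first | (norm_num at h1; done) | norm_num at hP
  · -- `d = 2 ε q r`
    exfalso
    rw [hd] at hP
    simp only [legendreSym.mul, pE, pR, pQ, p2] at hP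
    have h1 := hR2 (ε * (2 * q)) (by rw [hd]; ring)
    have h2 : -(4 * (p : ℤ) ^ 3 * q ^ 2) * (ε * (2 * q)) =
        -1 * (2 * (2 * (2 * (p * (p * (p * (q * (q * (q * ε))))))))) := by ring
    have h3 : -(-(4 * (p : ℤ) ^ 2 * q) * (ε * (2 * q))) =
        2 * (2 * (2 * (p * (p * (q * (q * ε)))))) := by ring
    rw [h2, h3] at h1
    simp only [legendreSym.mul, r1, r2, rP, rQ, rE] at h1
    rcases s1 with rfl | rfl <;> rcases hε with rfl | rfl <;>
      first | (norm_num at h1; done) | norm_num at hP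

end Pool.Agent.G02.H32
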